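import Pool.Agent.T9h51.CH.All

set_option autoImplicit false

/-!
# Chowla's conjecture for almost all constant terms, all degrees, arguments with restricted digits

`S` is the set of the integers `n < b^k` whose `i`-th digit in base `b` lies in `D i` (`i < k`), arbitrary sets of at least two
digits. Let `f` be an integer polynomial of degree `d ≥ 2` with fixed leading coefficient and `|f(n)| ≤ B b^(dk)` on
`n < b^k`, and `g_1, ..., g_r` arbitrary fixed integer polynomials. For all but `b^(dk) / k^U` of the integers `c` with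
`|c| ≤ X` (any `X ≤ B b^(dk)`) the estimate of Chowla's conjecture holds on `S` for ALL the polynomials

`F = (f + h + c) (g_1 + h_1) ... (g_r + h_r)`,

`h`, `h_i` polynomials with coefficients at most `k^A` (of degree less than `d`, less than `E`), in all initial segments and in
all progressions with moduli at most `k^A`, also with a bounded weight.

Proof. The values of `f` at `S` have minimal additive energy of some order (a Weyl inequality for polynomials at integers with
restricted digits, `Agent/T9h51/PD`); the mean square over `c` is bounded by this and the theorem of Davenport, and the majorant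
property of the even moments allows arbitrary coefficients. The exceptional sets of all `h`, `h_i` are added.
-/

namespace Pool.Agent.Results.MP_892e4c_nt.PolynomialsOfAllDegrees

open Finset Polynomial

/-- the integers below `b ^ k` whose `i`-th digit in base `b` belongs to `D i` for all `i < k` -/
def S (b : ℕ) (D : ℕ → Finset ℕ) (k : ℕ) : Finset ℕ := (range (b ^ k)).filter (fun n : ℕ => ∀ i < k, n / b ^ i % b ∈ D i)

/-- the Liouville function on the integers -/
noncomputable def lam (m : ℤ) : ℝ := if m = 0 then 0 else (-1) ^ ArithmeticFunction.cardFactors m.natAbs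

/-- the polynomial `∑ u_i X^i` -/
noncomputable def pol {m : ℕ} (u : Fin m → ℤ) : ℤ[X] := ∑ i : Fin m, C (u i) * X ^ (i : ℕ)

/-- the polynomial `(f + h + c) (g_1 + h_1) ... (g_r + h_r)`, where `h`, `h_i` have the coefficients `v`, `u i` -/
noncomputable def product {r E d : ℕ} (f : ℤ[X]) (c : ℤ) (g : Fin r → ℤ[X]) (v : Fin d → ℤ) (u : Fin r → Fin E → ℤ) : ℤ[X] :=
  (f + pol v + C c) * ∏ i, (g i + pol (u i))

/-- the estimate fails for some choice of the perturbations (coefficients at most `k ^ A`), of the initial segment `n < Y` and of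
the residue class `a` modulo `q ≤ k ^ A` -/
def Fails {r : ℕ} (b : ℕ) (D : ℕ → Finset ℕ) (k d E A U : ℕ) (w : ℕ → ℝ) (f : ℤ[X]) (g : Fin r → ℤ[X]) (c : ℤ) : Prop :=
  ∃ (v : Fin d → ℤ) (u : Fin r → Fin E → ℤ), (∀ i, |v i| ≤ (k : ℤ) ^ A) ∧ (∀ i l, |u i l| ≤ (k : ℤ) ^ A) ∧
    ∃ Y q a : ℕ, Y ≤ b ^ k ∧ 1 ≤ q ∧ q ≤ k ^ A ∧
      ((S b D k).card : ℝ) / (k : ℝ) ^ U <
        |∑ n ∈ (S b D k).filter (fun n => n < Y ∧ n % q = a), w n * lam ((product f c g v u).eval (n : ℤ))|

lemma lam_ev (x : ℤ) : lam x = Pool.Agent.TH872.Sq.ev Pool.Agent.TH872.Sq.liF x := rfl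

lemma lam_mul (x y : ℤ) : lam (x * y) = lam x * lam y := Pool.Agent.TH872.Sq.ev_li_mul x y

lemma lam_abs (x : ℤ) : |lam x| ≤ 1 := by
  unfold lam
  split_ifs
  · simp
  · rw [abs_pow, abs_neg, abs_one, one_pow]

open Classical in
/-- **The Liouville function at polynomials of all degrees with almost all constant terms, at integers with restricted digits.** -/
theorem result (b d : ℕ) (hb : 2 ≤ b) (hd : 2 ≤ d) (κ : ℤ) (hκ : κ ≠ 0) (r B E A U : ℕ) :
    ∃ K₀ : ℕ, ∀ k : ℕ, K₀ ≤ k → ∀ D : ℕ → Finset ℕ, (∀ i < k, D i ⊆ range b ∧ 2 ≤ (D i).card) →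
    ∀ f : ℤ[X], f.natDegree = d → f.leadingCoeff = κ → (∀ n < b ^ k, |f.eval (n : ℤ)| ≤ (B : ℤ) * (b : ℤ) ^ (d * k)) →
    ∀ g : Fin r → ℤ[X], ∀ w : ℕ → ℝ, (∀ n, |w n| ≤ 1) → ∀ X : ℕ, X ≤ B * b ^ (d * k) →
    (((Icc (-(X : ℤ)) X).filter (fun c : ℤ => Fails b D k d E A U w f g c)).card : ℝ) ≤ ((b ^ (d * k) : ℕ) : ℝ) / (k : ℝ) ^ U := by
  obtain ⟨j, rfl⟩ : ∃ j, d = j + 2 := ⟨d - 2, by omega⟩
  obtain ⟨K₀, h1⟩ := Pool.Agent.T9h51.CH.main b hb j κ hκ Pool.Agent.TH872.Sq.liF Pool.Agent.TH872.Sq.nice_liF (Fin r × Fin E) B A U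
  refine ⟨K₀, fun k hk D hD f hfd hfκ hfB g w hw X hX => ?_⟩
  have hco : f.coeff (j + 2) = κ := by rw [← hfκ, leadingCoeff, hfd]
  have h2 := h1 k hk D hD f hfd.le hco hfB X hX
    (fun u n => w n * ∏ i : Fin r, lam ((g i + pol (fun l => u (i, l))).eval (n : ℤ))) (by
      intro u n
      rw [abs_mul, abs_prod]
      have h3 : ∏ i : Fin r, |lam ((g i + pol (fun l => u (i, l))).eval (n : ℤ))| ≤ 1 :=
        prod_le_one (fun i _ => abs_nonneg _) (fun i _ => lam_abs _)
      calc |w n| * ∏ i : Fin r, |lam ((g i + pol (fun l => u (i, l))).eval (n : ℤ))| ≤ 1 * 1 :=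
            mul_le_mul (hw n) h3 (prod_nonneg fun i _ => abs_nonneg _) (by norm_num)
        _ = 1 := by norm_num)
  refine le_trans ?_ h2
  apply Nat.cast_le.2
  apply card_le_card
  intro c hc
  rw [mem_filter] at hc ⊢
  obtain ⟨hc1, v, u, hv, hu, Y, q, a, hY, hq1, hq2, hlt⟩ := hc
  refine ⟨hc1, fun e => u e.1 e.2, v, ?_, ?_, Y, q, a, hY, hq1, hq2, ?_⟩
  · intro e
    push_cast
    exact hu e.1 e.2
  · intro i
    push_cast
    exact hv i
  · refine lt_of_lt_of_eq hlt ?_
    congr 1
    apply sum_congr rfl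
    intro n _
    unfold product
    rw [eval_mul, lam_mul, eval_prod, lam_ev (∏ i, _), Pool.Agent.TH872.Sq.ev_li_prod, eval_add, eval_C, lam_ev (_ + c)]
    simp only [lam_ev]
    have e1 : (pol v : ℤ[X]) = Pool.Agent.T9h51.CH.pol v := rfl
    rw [e1]
    ring

end Pool.Agent.Results.MP_892e4c_nt.PolynomialsOfAllDegrees
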